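import Mathlib
import Pool.Agent.Q278.OS.Kro

/-!
# The number of element orders of the symmetric group is at most `exp (√n)`

For every positive integer `n`, the number of distinct orders of elements of `Sym(n)` is at most
`exp (√n)`.

An order `m` satisfies `∑ p ^ v_p(m) ≤ n`, so the orders are counted by the coefficients of
`∏_p (1 + X ^ p + X ^ (p ^ 2) + ...)`. For `n ≥ 8000` Rankin's method is used: prime powers coprime
to `210` have density at most `8 / 35`, so the part of the product at the primes `p > 7` is at most
`∏_i (1 + exp (- (35 / 8) a i))`, which is estimated by the alternating expansion of `log (1 + z)`;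
the four primes `2, 3, 5, 7` cost a product of logarithms. For `n < 8000` the coefficients are
computed exactly, in the kernel, by Kronecker substitution at `2 ^ 130`.
-/

set_option autoImplicit false

namespace Pool.Agent.Results.MP_bcad5b_nt.AllDegrees

/-- **Main result.** For every positive integer `n`, the number of distinct element orders of the
symmetric group on `n` letters is at most `exp (√n)`. -/
theorem result : ∀ n : ℕ, 1 ≤ n →
    ((Set.range (fun σ : Equiv.Perm (Fin n) => orderOf σ)).ncard : ℝ) ≤ Real.exp (Real.sqrt n) := by
  intro n hn
  have h := Pool.Agent.Q278.OS.main n hn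
  have h1 : (Set.range (fun σ : Equiv.Perm (Fin n) => orderOf σ)) =
      ((Pool.Agent.Q278.OS.Ords n : Finset ℕ) : Set ℕ) := by
    ext m
    simp [Pool.Agent.Q278.OS.Ords]
  rw [h1, Set.ncard_coe_finset]
  exact h

end Pool.Agent.Results.MP_bcad5b_nt.AllDegrees
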